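import Mathlib
import Pool.Agent.Y32.AS.Defs
import Pool.Agent.Helper336.CF

/-!
Project AS (MP_b0758d_lc): the language `LL` is context-free.
-/

set_option autoImplicit false

namespace Pool.Agent.Y469.AS

open Pool.Agent.Helper336.CF Pool.Agent.Y32.AS

universe u

variable {T : Type u}

/-- Words obtained from the words of `M` by surrounding them repeatedly with pairs of `F`. -/
inductive Nest (F : Set (List T × List T)) (M : Set (List T)) : List T → Prop
  | base (w : List T) : w ∈ M → Nest F M w
  | step (a b w : List T) : (a, b) ∈ F → Nest F M w → Nest F M (a ++ w ++ b)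

theorem cf_nest (F : Set (List T × List T)) (hF : F.Finite) {M : Set (List T)} (hM : IsCF M) :
    IsCF {w | Nest F M w} := by
  classical
  obtain ⟨g₁, e₁⟩ := hM
  have e₁' : Gen g₁ g₁.initial = M := e₁
  let g0 : ContextFreeGrammar T := ⟨PUnit, PUnit.unit, ∅⟩
  let body : List T × List T → List (Symbol T (Option (g₁.NT ⊕ g0.NT))) := fun p =>
    p.1.map Symbol.terminal ++ (Symbol.nonterminal none :: p.2.map Symbol.terminal)
  refine ext_cf g₁ g0 (insert [Symbol.nonterminal (some (Sum.inl g₁.initial))]
    (hF.toFinset.image body)) _ ?_ ?_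
  · intro o ho w hw
    rw [Finset.mem_insert, Finset.mem_image] at ho
    rcases ho with rfl | ⟨⟨a, b⟩, hp, rfl⟩
    · obtain ⟨w₁, w₂, rfl, h1, h2⟩ := hw
      simp only [Comp] at h2
      subst h2
      refine Nest.base _ ?_
      rw [List.append_nil, ← e₁']
      exact h1
    · have hw' : Comp (sem g₁ g0 {w | Nest F M w}) (a.map Symbol.terminal ++
        (Symbol.nonterminal none :: b.map Symbol.terminal)) w := hw
      rw [comp_append] at hw'
      obtain ⟨w₁, w₂, rfl, h1, w₃, w₄, rfl, h3, h4⟩ := hw'
      rw [comp_map_terminal] at h1 h4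
      subst h1 h4
      rw [← List.append_assoc]
      exact Nest.step _ _ _ (hF.mem_toFinset.1 hp) h3
  · intro S h1 _ hS w hw
    induction hw with
    | base w hw =>
      refine hS [Symbol.nonterminal (some (Sum.inl g₁.initial))] (Finset.mem_insert_self _ _) _ ?_
      refine ⟨w, [], by simp, h1 _ ?_, rfl⟩
      rw [e₁']
      exact hw
    | step a b w hab _ ih =>
      refine hS (body (a, b)) (Finset.mem_insert_of_mem
        (Finset.mem_image_of_mem _ (hF.mem_toFinset.2 hab))) _ ?_
      show Comp S (a.map Symbol.terminal ++ (Symbol.nonterminal none :: b.map Symbol.terminal)) _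
      rw [comp_append]
      exact ⟨a, w ++ b, by simp, (comp_map_terminal S _ _).2 rfl, w, b, rfl, ih,
        (comp_map_terminal S _ _).2 rfl⟩

/-- surrounding by letters with a property on the left and words of length `k` on the right -/
theorem cf_nestk [Finite T] (P : T → Prop) (k : ℕ) {M : Set (List T)} (hM : IsCF M) :
    IsCF {w | ∃ p m s : List T, m ∈ M ∧ (∀ a ∈ p, P a) ∧ s.length = k * p.length ∧
      w = p ++ m ++ s} := by
  have hF : {x : List T × List T | ∃ a, P a ∧ x.1 = [a] ∧ x.2.length = k}.Finite := by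
    refine ((List.finite_length_eq T 1).prod (List.finite_length_eq T k)).subset ?_
    rintro ⟨x1, x2⟩ ⟨a, _, h1, h2⟩
    simp only at h1 h2
    subst h1
    exact ⟨rfl, h2⟩
  convert cf_nest _ hF hM using 1
  ext w
  constructor
  · rintro ⟨p, m, s, hm, hp, hs, rfl⟩
    induction p generalizing s with
    | nil =>
      have : s = [] := by
        rw [List.length_nil, Nat.mul_zero] at hs
        exact List.length_eq_zero_iff.1 hs
      subst this
      refine Nest.base _ ?_
      simpa using hm
    | cons a p ih =>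
      have hs' : s.length = k * p.length + k := by
        rw [hs, List.length_cons]
        ring
      have h1 := ih (s.take (k * p.length)) (fun b hb => hp b (List.mem_cons_of_mem _ hb))
        (by rw [List.length_take, hs']; omega)
      have h2 := Nest.step (F := {x : List T × List T | ∃ a, P a ∧ x.1 = [a] ∧ x.2.length = k})
        [a] (s.drop (k * p.length)) _
        ⟨a, hp a List.mem_cons_self, rfl, by
          show (s.drop (k * p.length)).length = k
          rw [List.length_drop, hs']; omega⟩ h1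
      have h3 : [a] ++ (p ++ m ++ s.take (k * p.length)) ++ s.drop (k * p.length)
          = a :: p ++ m ++ s := by
        conv_rhs => rw [← List.take_append_drop (k * p.length) s]
        simp only [List.append_assoc, List.cons_append, List.nil_append]
      rw [← h3]
      exact h2
  · intro hw
    induction hw with
    | base w hw => exact ⟨[], w, [], hw, by simp, by simp, by simp⟩
    | step a b w hab _ ih =>
      obtain ⟨c, hc, h1, h2⟩ := hab
      obtain ⟨p, m, s, hm, hp, hs, rfl⟩ := ih
      simp only at h1 h2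
      subst h1
      refine ⟨c :: p, m, s ++ b, hm, ?_, ?_, ?_⟩
      · intro x hx
        rcases List.mem_cons.1 hx with rfl | hx
        · exact hc
        · exact hp x hx
      · rw [List.length_append, List.length_cons, hs, h2]
        ring
      · simp only [List.append_assoc, List.cons_append, List.nil_append]

theorem cf_all [Finite T] (P : T → Prop) : IsCF {w : List T | ∀ a ∈ w, P a} := by
  convert cf_nestk P 0 (cf_singleton (T := T) []) using 1
  ext w
  constructor
  · intro hw
    exact ⟨w, [], [], rfl, hw, by simp, by simp⟩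
  · rintro ⟨p, m, s, hm, hp, hs, rfl⟩
    rw [Nat.zero_mul] at hs
    have h1 : s = [] := List.length_eq_zero_iff.1 hs
    have h2 : m = [] := hm
    subst h1 h2
    simpa using hp

theorem cf_univ [Finite T] : IsCF (Set.univ : Set (List T)) := by
  convert cf_all (T := T) (fun _ => True) using 1
  ext w
  simp

theorem cf_fin {F : Set (List T)} (hF : F.Finite) : IsCF F := by
  convert cf_finite hF.toFinset using 1
  ext w
  simp

/-- surroundings of the words of `M` -/
def NK (M : Set (List (Fin 17))) : Set (List (Fin 17)) :=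
  {w | ∃ p m s : List (Fin 17), m ∈ M ∧ (∀ a ∈ p, a ≠ 16) ∧ s.length = 5 * p.length ∧
      w = p ++ m ++ s}

/-- the middle words of a mismatch of the first kind -/
def Mid (x : Fin 17) (r : ℕ) : Set (List (Fin 17)) :=
  cat {[x]} (cat {w | ∀ a ∈ w, a ≠ 16} (cat {[16]} {w | w.length = r}))

theorem cf_mid (x : Fin 17) (r : ℕ) : IsCF (Mid x r) :=
  cf_cat (cf_singleton _) (cf_cat (cf_all _) (cf_cat (cf_singleton _)
    (cf_fin (List.finite_length_eq _ r))))

/-- the finitely many kinds of mismatches -/
def II : Set (Fin 17 × ℕ × Fin 17) := {i | i.1 ≠ 16 ∧ i.2.1 < 5 ∧ (g i.1)[i.2.1]? ≠ some i.2.2}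

theorem II_fin : II.Finite := by
  refine (Set.finite_univ.prod ((Set.finite_Iio 5).prod Set.finite_univ)).subset ?_
  rintro ⟨x, r, y⟩ ⟨_, h, _⟩
  exact ⟨trivial, h, trivial⟩

theorem cf_mis1 : IsCF {z | Mis1 z} := by
  have h1 : {z | Mis1 z} = ⋃ i ∈ II, cat Set.univ (cat {[16]} (cat (NK (Mid i.1 i.2.1))
      (cat {[i.2.2]} Set.univ))) := by
    ext z
    simp only [Set.mem_iUnion, exists_prop, Prod.exists]
    constructor
    · rintro ⟨α, p, x, q, p', y, β, r, rfl, hp, hx, hq, hr, hl, hg⟩
      refine ⟨x, r, y, ⟨hx, hr, hg⟩, α, trivial,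
        [16] ++ ((p ++ ([x] ++ (q ++ ([16] ++ p'.take r))) ++ p'.drop r) ++ ([y] ++ β)), ?_, ?_⟩
      · refine ⟨[16], rfl, _, ⟨_, ⟨p, _, p'.drop r, ?_, hp, ?_, rfl⟩, _, ⟨[y], rfl, β, trivial,
          rfl⟩, rfl⟩, rfl⟩
        · refine ⟨[x], rfl, _, ⟨q, hq, _, ⟨[16], rfl, p'.take r, ?_, rfl⟩, rfl⟩, rfl⟩
          show (p'.take r).length = r
          rw [List.length_take, hl]
          omega
        · rw [List.length_drop, hl]
          omega
      · conv_lhs => rw [← List.take_append_drop r p']
        simp only [List.append_assoc]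
    · rintro ⟨x, r, y, ⟨hx, hr, hg⟩, α, -, _, ⟨_, h16, _, ⟨_, ⟨p, m, s, hm, hp, hs, rfl⟩, _,
        ⟨_, hy, β, -, rfl⟩, rfl⟩, rfl⟩, rfl⟩
      obtain ⟨_, h1, _, ⟨q, hq, _, ⟨_, h2, t, ht, rfl⟩, rfl⟩, rfl⟩ := hm
      rw [Set.mem_singleton_iff] at h16 hy h1 h2
      subst h16 hy h1 h2
      refine ⟨α, p, x, q, t ++ s, y, β, r, ?_, hp, hx, hq, hr, ?_, hg⟩
      · simp only [List.append_assoc]
      · have ht' : t.length = r := ht
        rw [List.length_append, ht', hs]
        ring
  rw [h1]
  refine cf_iUnion II II_fin _ fun i _ => ?_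
  exact cf_cat cf_univ (cf_cat (cf_singleton _) (cf_cat (cf_nestk _ 5 (cf_mid _ _))
    (cf_cat (cf_singleton _) cf_univ)))

theorem cf_mis2 : IsCF {z | Mis2 z} := by
  have h1 : {z | Mis2 z} = cat Set.univ (cat {[16]} (cat (NK {[16]})
      (cat {w | w.length = 1 ∧ w ≠ [16]} Set.univ))) := by
    ext z
    constructor
    · rintro ⟨α, p, p', y, β, rfl, hp, hl, hy⟩
      refine ⟨α, trivial, [16] ++ ((p ++ [16] ++ p') ++ ([y] ++ β)), ?_, ?_⟩
      · refine ⟨[16], rfl, _, ⟨_, ⟨p, _, p', rfl, hp, hl, rfl⟩, _, ⟨[y], ⟨rfl, ?_⟩, β, trivial,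
          rfl⟩, rfl⟩, rfl⟩
        intro h
        exact hy (List.singleton_inj.1 h)
      · simp only [List.append_assoc]
    · rintro ⟨α, -, _, ⟨_, h16, _, ⟨_, ⟨p, m, s, hm, hp, hs, rfl⟩, _,
        ⟨w, ⟨hw1, hw2⟩, β, -, rfl⟩, rfl⟩, rfl⟩, rfl⟩
      rw [Set.mem_singleton_iff] at h16 hm
      subst h16 hm
      obtain ⟨y, rfl⟩ := List.length_eq_one_iff.1 hw1
      refine ⟨α, p, s, y, β, ?_, hp, hs, fun h => hw2 (by rw [h])⟩
      simp only [List.append_assoc]
  rw [h1]
  refine cf_cat cf_univ (cf_cat (cf_singleton _) (cf_cat (cf_nestk _ 5 (cf_singleton _))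
    (cf_cat (cf_fin ?_) cf_univ)))
  exact (List.finite_length_eq (Fin 17) 1).subset fun w hw => hw.1

theorem cf_pre : IsCF {z : List (Fin 17) | ¬ [16, 0, 16] <+: z} := by
  have h1 : {z : List (Fin 17) | ¬ [16, 0, 16] <+: z} = {w | w.length < 3} ∪
      cat {w | w.length = 3 ∧ w ≠ [16, 0, 16]} Set.univ := by
    ext z
    constructor
    · intro hz
      rcases Nat.lt_or_ge z.length 3 with h | h
      · exact Or.inl h
      · refine Or.inr ⟨z.take 3, ⟨by rw [List.length_take]; omega, ?_⟩, z.drop 3, trivial,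
          (List.take_append_drop 3 z).symm⟩
        intro h3
        exact hz ⟨z.drop 3, by rw [← h3, List.take_append_drop]⟩
    · rintro (h | ⟨u, ⟨hu1, hu2⟩, v, -, rfl⟩) hz
      · have := hz.length_le
        have h' : z.length < 3 := h
        simp only [List.length_cons, List.length_nil] at this
        omega
      · apply hu2
        obtain ⟨t, ht⟩ := hz
        exact (List.append_inj_left ht (by rw [hu1]; rfl)).symm
  rw [h1]
  refine cf_union (cf_fin ?_) (cf_cat (cf_fin ?_) cf_univ)
  · exact List.finite_length_lt (Fin 17) 3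
  · exact (List.finite_length_eq (Fin 17) 3).subset fun w hw => hw.1

theorem cf_suf : IsCF {z : List (Fin 17) | ¬ [16] <:+ z} := by
  have h1 : {z : List (Fin 17) | ¬ [16] <:+ z} = {[]} ∪
      cat Set.univ {w | w.length = 1 ∧ w ≠ [16]} := by
    ext z
    constructor
    · intro hz
      rcases List.eq_nil_or_concat z with h | ⟨u, a, rfl⟩
      · exact Or.inl h
      · refine Or.inr ⟨u, trivial, [a], ⟨rfl, fun h => hz ⟨u, ?_⟩⟩, ?_⟩
        · rw [← h, List.concat_eq_append]
        · rw [List.concat_eq_append]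
    · rintro (h | ⟨u, -, v, ⟨hv1, hv2⟩, rfl⟩) hz
      · have h' : z = [] := h
        subst h'
        have := hz.length_le
        simp at this
      · apply hv2
        obtain ⟨t, ht⟩ := hz
        exact (List.append_inj_right' ht (by rw [hv1]; rfl)).symm
  rw [h1]
  refine cf_union (cf_singleton _) (cf_cat cf_univ (cf_fin ?_))
  exact (List.finite_length_eq (Fin 17) 1).subset fun w hw => hw.1

theorem t_CF : S_CF :=
  cf_union (cf_union (cf_union cf_pre cf_suf) cf_mis1) cf_mis2

end Pool.Agent.Y469.AS
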